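import Mathlib
import Pool.Agent.Y840.PT.Loc
import Pool.Agent.Y959.Sv.Up

/-! Upper bound for the number of the integers of an interval without small prime factors. -/

set_option autoImplicit false

namespace Pool.Agent.X37.TQ

open Finset Filter
open Pool.Agent.Y840.PT (P0 mert)
open Pool.Agent.Y959.Sv (nu up_sieve)

theorem nu_shift (c : ℤ) {p : ℕ} (hp : p.Prime) : nu (fun p n => (p : ℤ) ∣ (n : ℤ) + c) p = 1 := by
  classical
  unfold nu
  have hp0 : (0 : ℤ) < p := by exact_mod_cast hp.pos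
  have hb := Int.emod_nonneg (-c) hp0.ne'
  have hb2 := Int.emod_lt_of_pos (-c) hp0
  rw [card_eq_one]
  refine ⟨((-c) % p).toNat, ?_⟩
  ext r
  simp only [mem_filter, mem_range, mem_singleton]
  have e : (((-c) % (p : ℤ)).toNat : ℤ) = (-c) % p := Int.toNat_of_nonneg hb
  constructor
  · rintro ⟨hr, hd⟩
    have h1 : (r : ℤ) ≡ -c [ZMOD p] := by
      rw [Int.modEq_iff_dvd]
      have : -c - (r : ℤ) = -((r : ℤ) + c) := by ring
      rw [this]
      exact (dvd_neg).2 hd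
    have h2 : (r : ℤ) % p = (-c) % p := h1
    rw [Int.emod_eq_of_lt (by positivity) (by exact_mod_cast hr)] at h2
    omega
  · intro hr
    subst hr
    refine ⟨by omega, ?_⟩
    show (p : ℤ) ∣ ((((-c) % p).toNat : ℕ) : ℤ) + c
    rw [e]
    have h1 : (p : ℤ) ∣ -c - (-c) % p := Int.dvd_self_sub_emod
    have h2 : (-c) % (p : ℤ) + c = -(-c - (-c) % p) := by ring
    rw [h2]
    exact (dvd_neg).2 h1

theorem one_sub_pos {p : ℕ} (hp : p.Prime) : (0 : ℝ) < 1 - 1 / (p : ℝ) := by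
  have h2 : (2 : ℝ) ≤ p := by exact_mod_cast hp.two_le
  have : 1 / (p : ℝ) ≤ 1 / 2 := one_div_le_one_div_of_le (by norm_num) h2
  linarith

open Classical in
/-- the number of the integers of an interval without small prime factors -/
theorem up1 : ∃ C : ℝ, 0 < C ∧ ∃ K z₁ : ℕ, 1 ≤ K ∧ ∀ y X : ℕ, z₁ ≤ y → y ^ K ≤ X → ∀ c : ℤ,
    (((Icc 1 X).filter (fun n : ℕ => ∀ p : ℕ, p.Prime → p ≤ y → ¬ (p : ℤ) ∣ (n : ℤ) + c)).card : ℝ) ≤
      C * (X / Real.log y) := by
  classical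
  obtain ⟨K, z0, hK, h⟩ := up_sieve 1
  obtain ⟨C, hC, hm⟩ := mert
  set π0 : ℝ := ∏ p ∈ P0 z0, (1 - 1 / (p : ℝ)) with hπ0
  have hπ0pos : 0 < π0 := prod_pos fun p hp => one_sub_pos (mem_filter.1 hp).2
  refine ⟨2 * C / π0 + 1, by positivity, K + 2, max 3 (z0 + 1), by omega, fun y X hy hyX c => ?_⟩
  have hy3 : 3 ≤ y := (le_max_left _ _).trans hy
  have hyz : z0 + 1 ≤ y := (le_max_right _ _).trans hy
  have hy1 : 1 ≤ y := by omega
  have hyK : y ^ K ≤ X := (Nat.pow_le_pow_right hy1 (by omega)).trans hyX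
  have hy2 : y ^ 2 ≤ X := (Nat.pow_le_pow_right hy1 (by omega)).trans hyX
  have hlog : 0 < Real.log y := Real.log_pos (by exact_mod_cast (by omega : 1 < y))
  set P : Finset ℕ := (Ioc z0 y).filter Nat.Prime with hP
  have h1 := h y X hy3 hyK (fun p n => (p : ℤ) ∣ (n : ℤ) + c) (by
    intro p n
    have h2 : ((n % p : ℕ) : ℤ) + c ≡ (n : ℤ) + c [ZMOD p] := by
      apply Int.ModEq.add_right
      push_cast
      exact Int.mod_modEq _ _
    exact (Int.ModEq.dvd_iff h2).symm) P (by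
    intro p hp
    rw [hP, mem_filter, mem_Ioc] at hp
    exact ⟨hp.2, hp.1.1, hp.1.2, (nu_shift c hp.2).le⟩)
  have h2 : ∏ p ∈ P, (1 - (nu (fun p n => (p : ℤ) ∣ (n : ℤ) + c) p : ℝ) / p) = ∏ p ∈ P, (1 - 1 / (p : ℝ)) := by
    apply prod_congr rfl
    intro p hp
    rw [hP, mem_filter] at hp
    rw [nu_shift c hp.2, Nat.cast_one]
  have hsplit : ∏ p ∈ P0 y, (1 - 1 / (p : ℝ)) = π0 * ∏ p ∈ P, (1 - 1 / (p : ℝ)) := by
    rw [hπ0, ← prod_union]
    · apply prod_congr _ (fun _ _ => rfl)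
      ext p
      unfold P0
      rw [hP, mem_union, mem_filter, mem_filter, mem_filter, mem_Ioc, mem_Ioc, mem_Ioc]
      constructor
      · rintro ⟨⟨h3, h4⟩, h5⟩
        rcases le_or_gt p z0 with h6 | h6
        · exact Or.inl ⟨⟨h3, h6⟩, h5⟩
        · exact Or.inr ⟨⟨h6, h4⟩, h5⟩
      · rintro (⟨⟨h3, h4⟩, h5⟩ | ⟨⟨h3, h4⟩, h5⟩)
        · exact ⟨⟨h3, by omega⟩, h5⟩
        · exact ⟨⟨by omega, h4⟩, h5⟩
    · rw [disjoint_left]
      intro p hp hp'
      unfold P0 at hp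
      rw [mem_filter, mem_Ioc] at hp
      rw [hP, mem_filter, mem_Ioc] at hp'
      omega
  have h3 : ∏ p ∈ P, (1 - 1 / (p : ℝ)) ≤ C / π0 / Real.log y := by
    have h4 := hm y (by omega)
    rw [hsplit] at h4
    rw [div_div, mul_comm π0, ← div_div, le_div_iff₀ hπ0pos]
    linarith
  rw [h2] at h1
  have hXR : (0 : ℝ) < X := by
    have : 0 < X := lt_of_lt_of_le (by positivity) hy2
    exact_mod_cast this
  have h5 : √(X : ℝ) ≤ X / Real.log y := by
    have h6 : Real.log y ≤ √(X : ℝ) := by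
      have h7 : (y : ℝ) ≤ √(X : ℝ) := by
        apply Real.le_sqrt_of_sq_le
        exact_mod_cast hy2
      have h8 : Real.log y ≤ y := by
        have := Real.log_le_sub_one_of_pos (show (0 : ℝ) < y by exact_mod_cast hy1)
        linarith
      linarith
    rw [le_div_iff₀ hlog]
    calc √(X : ℝ) * Real.log y ≤ √(X : ℝ) * √(X : ℝ) := by gcongr
      _ = X := Real.mul_self_sqrt hXR.le
  refine le_trans ?_ (le_trans h1 ?_)
  · rw [Nat.cast_le]
    apply card_le_card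
    intro n hn
    simp only [mem_filter] at hn ⊢
    refine ⟨hn.1, fun p hp => ?_⟩
    rw [hP, mem_filter, mem_Ioc] at hp
    exact hn.2 p hp.2 hp.1.2
  · calc 2 * (X * ∏ p ∈ P, (1 - 1 / (p : ℝ))) + √(X : ℝ)
        ≤ 2 * (X * (C / π0 / Real.log y)) + X / Real.log y := by gcongr
      _ = (2 * C / π0 + 1) * (X / Real.log y) := by ring

end Pool.Agent.X37.TQ
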