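import Mathlib
import Pool.Agent.X26.GP.Poly
import Pool.Agent.X37.TQ.Up
import Pool.Agent.Y840.PT.Gen
import Pool.Agent.X37.TQ.Upper

/-! The average of the sieve products of `G ∏ (f_i + a_i)` over short boxes of shifts `a`. -/

set_option autoImplicit false

namespace Pool.Agent.X37.TQ

open Finset Filter Topology
open Pool.Agent.Y843.HS (Pr VV)
open Pool.Agent.Y843.AC (OK Av)
open Pool.Agent.X26.GP (Zf mem_Zf_mod Zf_lt dvd_eval_iff rough)
open Pool.Agent.Y840.PT (floor_pow)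

theorem zf_local {F : Polynomial ℤ} {q : ℕ} (hq : q.Prime) {n : ℤ} (hn : ¬ (q : ℤ) ∣ F.eval n) :
    (Zf F q).card ≤ F.natDegree ∧ (Zf F q).card < q ∧ ∀ u ∈ Zf F q, u < q := by
  classical
  refine ⟨?_, ?_, Zf_lt F q⟩
  · have : Fact q.Prime := ⟨hq⟩
    obtain ⟨g, hg⟩ : ∃ g : Polynomial (ZMod q), g = F.map (Int.castRingHom (ZMod q)) := ⟨_, rfl⟩
    have hev : ∀ a : ℤ, g.eval ((a : ℤ) : ZMod q) = ((F.eval a : ℤ) : ZMod q) := by
      intro a
      rw [hg, Polynomial.eval_intCast_map]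
      simp
    have hg0 : g ≠ 0 := by
      intro h0
      apply hn
      have h1 := hev n
      rw [h0, Polynomial.eval_zero] at h1
      exact (ZMod.intCast_zmod_eq_zero_iff_dvd _ _).1 h1.symm
    have h1 : (Zf F q).card ≤ g.roots.toFinset.card := by
      apply card_le_card_of_injOn (f := fun u : ℕ => ((u : ℤ) : ZMod q))
      · intro u hu
        rw [mem_coe] at hu
        unfold Zf at hu
        rw [mem_filter] at hu
        rw [mem_coe, Multiset.mem_toFinset, Polynomial.mem_roots hg0]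
        show g.eval _ = 0
        rw [hev]
        exact (ZMod.intCast_zmod_eq_zero_iff_dvd _ _).2 hu.2
      · intro u hu v hv huv
        rw [mem_coe] at hu hv
        have h2 := Zf_lt F q u hu
        have h3 := Zf_lt F q v hv
        have h4 : ((u : ℤ) : ZMod q) = ((v : ℤ) : ZMod q) := huv
        rw [ZMod.intCast_eq_intCast_iff] at h4
        have h5 : u ≡ v [MOD q] := Int.natCast_modEq_iff.1 h4
        have h6 : u % q = v % q := h5
        rwa [Nat.mod_eq_of_lt h2, Nat.mod_eq_of_lt h3] at h6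
    refine h1.trans ((Multiset.toFinset_card_le _).trans ((Polynomial.card_roots' g).trans ?_))
    rw [hg]
    exact Polynomial.natDegree_map_le
  · have hq0 : (q : ℤ) ≠ 0 := by exact_mod_cast hq.ne_zero
    have h1 : Zf F q ⊂ range q := by
      refine ⟨filter_subset _ _, fun hcon => ?_⟩
      have h2 : (n % q).toNat ∈ range q := by
        rw [mem_range]
        have h3 := Int.emod_nonneg n hq0
        have h4 := Int.emod_lt_of_pos n (show (0 : ℤ) < q by exact_mod_cast hq.pos)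
        omega
      have h3 := hcon h2
      unfold Zf at h3
      rw [mem_filter] at h3
      apply hn
      have h4 : (((n % q).toNat : ℕ) : ℤ) = n % q := Int.toNat_of_nonneg (Int.emod_nonneg n hq0)
      rw [h4] at h3
      have h5 : (q : ℤ) ∣ n - n % q := Int.dvd_self_sub_emod
      exact (dvd_eval_iff h5).2 h3.2
    have h2 := card_lt_card h1
    rwa [card_range] at h2

/-- the product of `G` and of the polynomials `f i + a i` -/
noncomputable def Fa {k : ℕ} (G : Polynomial ℤ) (f : Fin k → Polynomial ℤ) (a : Fin k → ℤ) : Polynomial ℤ :=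
  G * ∏ i, (f i + Polynomial.C (a i))

theorem Fa_eval {k : ℕ} (G : Polynomial ℤ) (f : Fin k → Polynomial ℤ) (a : Fin k → ℤ) (n : ℤ) :
    (Fa G f a).eval n = G.eval n * ∏ i, ((f i).eval n + a i) := by
  unfold Fa
  rw [Polynomial.eval_mul, Polynomial.eval_prod]
  simp

theorem Fa_deg {k e : ℕ} {G : Polynomial ℤ} (hG : G.natDegree ≤ e) {f : Fin k → Polynomial ℤ}
    (hf : ∀ i, (f i).natDegree ≤ e) (a : Fin k → ℤ) : (Fa G f a).natDegree ≤ e + k * e := by
  unfold Fa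
  refine Polynomial.natDegree_mul_le.trans (add_le_add hG ?_)
  refine (Polynomial.natDegree_prod_le _ _).trans ?_
  calc ∑ i, (f i + Polynomial.C (a i)).natDegree ≤ ∑ _i : Fin k, e := by
        apply sum_le_sum
        intro i _
        rw [Polynomial.natDegree_add_C]
        exact hf i
    _ = k * e := by simp

/-- the box of the shifts -/
noncomputable def Box {k : ℕ} (b : Fin k → ℤ) (A : Fin k → ℕ) : Finset (Fin k → ℤ) :=
  Fintype.piFinset (fun i => Ioc (b i) (b i + A i))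

theorem mem_Box {k : ℕ} {b : Fin k → ℤ} {A : Fin k → ℕ} {a : Fin k → ℤ} :
    a ∈ Box b A ↔ ∀ i, b i < a i ∧ a i ≤ b i + A i := by
  unfold Box
  rw [Fintype.mem_piFinset]
  simp only [mem_Ioc]

theorem VV_nonneg {F : Polynomial ℤ} (a b : ℕ) : 0 ≤ VV (Zf F) a b := by
  unfold VV
  apply prod_nonneg
  intro p hp
  have hp0 : (0 : ℝ) < p := by
    unfold Pr at hp
    exact_mod_cast (mem_filter.1 hp).2.pos
  have h1 : ((Zf F p).card : ℝ) ≤ p := by
    have : (Zf F p).card ≤ p := by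
      unfold Zf
      exact (card_filter_le _ _).trans (by simp)
    exact_mod_cast this
  rw [sub_nonneg, div_le_one hp0]
  exact h1

/-- no prime up to `X ^ κ` divides all values -/
def Adm (κ : ℝ) (X : ℕ) (F : Polynomial ℤ) : Prop :=
  ∀ p : ℕ, p.Prime → (p : ℝ) ≤ (X : ℝ) ^ κ → ∃ n : ℤ, ¬ (p : ℤ) ∣ F.eval n

theorem OK_of {κ : ℝ} {X r : ℕ} {F : Polynomial ℤ} (hF : F.natDegree ≤ r) (h : Adm κ X F) :
    OK r κ X (Zf F) := by
  intro p hp hpX
  obtain ⟨n, hn⟩ := h p hp hpX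
  obtain ⟨h1, h2, h3⟩ := zf_local hp hn
  exact ⟨h1.trans hF, h2, h3⟩

open Classical in
/-- the average over the box -/
theorem avg (k e : ℕ) (η : ℝ) (hη : 0 < η) : ∃ κ₁ : ℝ, 0 < κ₁ ∧ ∀ κ : ℝ, 0 < κ → κ ≤ κ₁ →
    ∃ C : ℝ, 0 < C ∧ ∃ X₀ : ℕ, ∀ X : ℕ, X₀ ≤ X →
    ∀ (G : Polynomial ℤ) (f : Fin k → Polynomial ℤ), G.natDegree ≤ e → (∀ i, (f i).natDegree ≤ e) →
    ∀ (b : Fin k → ℤ) (A : Fin k → ℕ), (∀ i, (X : ℝ) ^ η ≤ A i) →
    ∀ Ad : Finset (Fin k → ℤ), Ad ⊆ Box b A → (∀ a ∈ Ad, Adm κ X (Fa G f a)) →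
    ∑ a ∈ Ad, VV (Zf (Fa G f a)) 0 ⌊(X : ℝ) ^ κ⌋₊ ≤
      C * (VV (Zf G) 0 ⌊(X : ℝ) ^ κ⌋₊ * ((∏ i, (A i : ℝ)) / Real.log X ^ k)) := by
  obtain ⟨κ₀, hκ₀, hκ₀1, hrough⟩ := rough (e + k * e)
  obtain ⟨κ₂, hκ₂, hκ₂1, hupper⟩ := upper e
  obtain ⟨C, hC, K, z₁, hK, hup⟩ := up1
  have hK0 : (0 : ℝ) < K := by exact_mod_cast hK
  refine ⟨min (min κ₀ κ₂) (η / K), by positivity, ?_⟩
  intro κ hκ0 hκ
  have hκ1 : κ ≤ κ₀ := hκ.trans ((min_le_left _ _).trans (min_le_left _ _))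
  have hκ2 : κ ≤ κ₂ := hκ.trans ((min_le_left _ _).trans (min_le_right _ _))
  have hκ3 : κ ≤ η / K := hκ.trans (min_le_right _ _)
  obtain ⟨X₁, hX₁⟩ := hrough κ hκ0 hκ1
  obtain ⟨X₂, hX₂⟩ := eventually_atTop.1 (floor_pow hκ0 z₁)
  obtain ⟨X₄, hX₄⟩ := hupper κ hκ0 hκ2
  refine ⟨4 * (C * (2 / κ)) ^ k, by positivity, max (max X₁ X₂) (max X₄ 2), ?_⟩
  intro X hX G f hG hf b A hA Ad hAd hadm
  have hX1 : X₁ ≤ X := ((le_max_left _ _).trans (le_max_left _ _)).trans hX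
  have hX2 : X₂ ≤ X := ((le_max_right _ _).trans (le_max_left _ _)).trans hX
  have hX4 : X₄ ≤ X := ((le_max_left _ _).trans (le_max_right _ _)).trans hX
  have hX3 : 2 ≤ X := ((le_max_right _ _).trans (le_max_right _ _)).trans hX
  have hXR : (0 : ℝ) < X := by exact_mod_cast (by omega : 0 < X)
  have hXR1 : (1 : ℝ) ≤ X := by exact_mod_cast (by omega : 1 ≤ X)
  have hL : 0 < Real.log X := Real.log_pos (by exact_mod_cast (by omega : 1 < X))
  rcases Ad.eq_empty_or_nonempty with hemp | ⟨a₀, ha₀⟩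
  · subst hemp
    rw [sum_empty]
    have := VV_nonneg (F := G) 0 ⌊(X : ℝ) ^ κ⌋₊
    positivity
  have hadG : Adm κ X G := by
    intro p hp hpX
    obtain ⟨n, hn⟩ := hadm a₀ ha₀ p hp hpX
    refine ⟨n, fun hd => hn ?_⟩
    rw [Fa_eval]
    exact hd.mul_right _
  obtain ⟨h1, h2, h3⟩ := hX₂ X hX2
  set y : ℕ := ⌊(X : ℝ) ^ κ⌋₊ with hy
  have hly : 0 < Real.log y := Real.log_pos (by exact_mod_cast (by omega : 1 < y))
  have hyA : ∀ i, y ^ K ≤ A i := by
    intro i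
    have h4 : ((y : ℝ)) ^ K ≤ A i := by
      calc ((y : ℝ)) ^ K ≤ ((X : ℝ) ^ κ) ^ K := pow_le_pow_left₀ (Nat.cast_nonneg _)
            (Nat.floor_le (by positivity)) K
        _ = (X : ℝ) ^ (κ * K) := by rw [← Real.rpow_natCast, ← Real.rpow_mul hXR.le]
        _ ≤ (X : ℝ) ^ η := by
            apply Real.rpow_le_rpow_of_exponent_le hXR1
            rwa [le_div_iff₀ hK0] at hκ3
        _ ≤ A i := hA i
    exact_mod_cast h4
  -- the number of shifts for a given argument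
  have key : ∀ n : ℕ, (((Box b A).filter (fun a => ∀ i, ∀ p : ℕ, p.Prime → p ≤ y →
      ¬ (p : ℤ) ∣ (f i).eval (n : ℤ) + a i)).card : ℝ) ≤ ∏ i, (C * ((A i : ℝ) / Real.log y)) := by
    intro n
    have h4 : (Box b A).filter (fun a => ∀ i, ∀ p : ℕ, p.Prime → p ≤ y →
        ¬ (p : ℤ) ∣ (f i).eval (n : ℤ) + a i) ⊆
        Fintype.piFinset (fun i => (Ioc (b i) (b i + A i)).filter (fun t => ∀ p : ℕ, p.Prime → p ≤ y →
          ¬ (p : ℤ) ∣ (f i).eval (n : ℤ) + t)) := by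
      intro a ha
      rw [mem_filter] at ha
      rw [Fintype.mem_piFinset]
      intro i
      rw [mem_filter, mem_Ioc]
      exact ⟨mem_Box.1 ha.1 i, ha.2 i⟩
    have h5 : (((Box b A).filter (fun a => ∀ i, ∀ p : ℕ, p.Prime → p ≤ y →
        ¬ (p : ℤ) ∣ (f i).eval (n : ℤ) + a i)).card : ℝ) ≤
        ∏ i, (((Ioc (b i) (b i + A i)).filter (fun t => ∀ p : ℕ, p.Prime → p ≤ y →
          ¬ (p : ℤ) ∣ (f i).eval (n : ℤ) + t)).card : ℝ) := by
      have := card_le_card h4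
      rw [Fintype.card_piFinset] at this
      exact_mod_cast this
    refine h5.trans ?_
    apply Finset.prod_le_prod
    · intro i _
      positivity
    · intro i _
      have h6 := hup y (A i) h1 (hyA i) ((f i).eval (n : ℤ) + b i)
      refine le_trans ?_ h6
      rw [Nat.cast_le]
      apply card_le_card_of_injOn (f := fun t : ℤ => (t - b i).toNat)
      · intro t ht
        rw [mem_coe, mem_filter, mem_Ioc] at ht
        rw [mem_coe, mem_filter, mem_Icc]
        have e : (((t - b i).toNat : ℕ) : ℤ) = t - b i := Int.toNat_of_nonneg (by omega)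
        have e3 : 1 ≤ (t - b i).toNat := by omega
        have e4 : (t - b i).toNat ≤ A i := by omega
        refine ⟨⟨e3, e4⟩, fun p hp hpy => ?_⟩
        show ¬ (p : ℤ) ∣ (((t - b i).toNat : ℕ) : ℤ) + ((f i).eval (n : ℤ) + b i)
        rw [e]
        have e2 : t - b i + ((f i).eval (n : ℤ) + b i) = (f i).eval (n : ℤ) + t := by ring
        rw [e2]
        exact ht.2 p hp hpy
      · intro t ht t' ht' h
        rw [mem_coe, mem_filter, mem_Ioc] at ht ht'
        have h' : (t - b i).toNat = (t' - b i).toNat := h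
        omega
  have hpyX : ∀ p : ℕ, p ≤ y → (p : ℝ) ≤ (X : ℝ) ^ κ := by
    intro p hpy
    have h4 : (p : ℝ) ≤ y := by exact_mod_cast hpy
    exact h4.trans (Nat.floor_le (by positivity))
  have hav : ∀ a : Fin k → ℤ, ∀ n : ℕ, Av κ X (Zf (Fa G f a)) n → ∀ i, ∀ p : ℕ, p.Prime → p ≤ y →
      ¬ (p : ℤ) ∣ (f i).eval (n : ℤ) + a i := by
    intro a n hn i p hp hpy hd
    apply hn p hp (hpyX p hpy)
    rw [mem_Zf_mod hp.pos, Fa_eval]
    exact (hd.trans (dvd_prod_of_mem (fun i => (f i).eval (n : ℤ) + a i) (mem_univ i))).mul_left _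
  have havG : ∀ a : Fin k → ℤ, ∀ n : ℕ, Av κ X (Zf (Fa G f a)) n → Av κ X (Zf G) n := by
    intro a n hn p hp hpX hd
    apply hn p hp hpX
    rw [mem_Zf_mod hp.pos] at hd ⊢
    rw [Fa_eval]
    exact hd.mul_right _
  set PP : ℝ := ∏ i, (C * ((A i : ℝ) / Real.log y)) with hPP
  have hPP0 : 0 ≤ PP := by rw [hPP]; positivity
  -- double counting
  have h4 : ∀ a ∈ Ad, (X : ℝ) * VV (Zf (Fa G f a)) 0 y ≤
      2 * (((Ioc 0 (0 + X)).filter (fun n => Av κ X (Zf (Fa G f a)) n)).card : ℝ) := by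
    intro a ha
    have h5 := hX₁ X 0 hX1 (Zf (Fa G f a)) (OK_of (Fa_deg hG hf a) (hadm a ha))
    linarith
  have h5 : ∑ a ∈ Ad, ((Ioc 0 (0 + X)).filter (fun n => Av κ X (Zf (Fa G f a)) n)).card =
      ∑ n ∈ Ioc 0 (0 + X), (Ad.filter (fun a => Av κ X (Zf (Fa G f a)) n)).card :=
    sum_card_bipartiteAbove_eq_sum_card_bipartiteBelow _
  have h6 : ∀ n ∈ Ioc 0 (0 + X), ((Ad.filter (fun a => Av κ X (Zf (Fa G f a)) n)).card : ℝ) ≤
      if Av κ X (Zf G) n then PP else 0 := by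
    intro n _
    by_cases hn : Av κ X (Zf G) n
    · rw [if_pos hn]
      refine le_trans ?_ (key n)
      rw [Nat.cast_le]
      apply card_le_card
      intro a ha
      rw [mem_filter] at ha ⊢
      exact ⟨hAd ha.1, hav a n ha.2⟩
    · rw [if_neg hn]
      have : Ad.filter (fun a => Av κ X (Zf (Fa G f a)) n) = ∅ := by
        rw [filter_eq_empty_iff]
        intro a _ ha
        exact hn (havG a n ha)
      rw [this, card_empty, Nat.cast_zero]
  have h6' : ∑ n ∈ Ioc 0 (0 + X), (if Av κ X (Zf G) n then PP else 0) ≤ 2 * (X * VV (Zf G) 0 y) * PP := by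
    rw [← sum_filter, sum_const, nsmul_eq_mul]
    apply mul_le_mul_of_nonneg_right _ hPP0
    exact hX₄ X 0 hX4 (Zf G) (OK_of hG hadG)
  have h7 : (X : ℝ) * ∑ a ∈ Ad, VV (Zf (Fa G f a)) 0 y ≤ X * (4 * (VV (Zf G) 0 y * PP)) := by
    rw [mul_sum]
    calc ∑ a ∈ Ad, (X : ℝ) * VV (Zf (Fa G f a)) 0 y
        ≤ ∑ a ∈ Ad, 2 * (((Ioc 0 (0 + X)).filter (fun n => Av κ X (Zf (Fa G f a)) n)).card : ℝ) :=
          sum_le_sum h4
      _ = 2 * ((∑ a ∈ Ad, ((Ioc 0 (0 + X)).filter (fun n => Av κ X (Zf (Fa G f a)) n)).card : ℕ) : ℝ) := by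
          rw [← mul_sum]; push_cast; rfl
      _ = 2 * ((∑ n ∈ Ioc 0 (0 + X), (Ad.filter (fun a => Av κ X (Zf (Fa G f a)) n)).card : ℕ) : ℝ) := by
          rw [h5]
      _ ≤ 2 * ∑ n ∈ Ioc 0 (0 + X), (if Av κ X (Zf G) n then PP else 0) := by
          push_cast
          gcongr with n hn
          exact h6 n hn
      _ ≤ 2 * (2 * (X * VV (Zf G) 0 y) * PP) := by gcongr
      _ = X * (4 * (VV (Zf G) 0 y * PP)) := by ring
  have h8 := le_of_mul_le_mul_left h7 hXR
  refine h8.trans ?_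
  have hVG := VV_nonneg (F := G) 0 y
  have h9 : PP ≤ ∏ i, (C * (2 / κ) * ((A i : ℝ) / Real.log X)) := by
    rw [hPP]
    apply Finset.prod_le_prod
    · intro i _; positivity
    · intro i _
      have h10 : (A i : ℝ) / Real.log y ≤ A i / (κ / 2 * Real.log X) :=
        div_le_div_of_nonneg_left (Nat.cast_nonneg _) (by positivity) h3
      calc C * ((A i : ℝ) / Real.log y) ≤ C * (A i / (κ / 2 * Real.log X)) := by gcongr
        _ = C * (2 / κ) * ((A i : ℝ) / Real.log X) := by field_simp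
  calc 4 * (VV (Zf G) 0 y * PP) ≤ 4 * (VV (Zf G) 0 y * ∏ i, (C * (2 / κ) * ((A i : ℝ) / Real.log X))) := by
        gcongr
    _ = 4 * (C * (2 / κ)) ^ k * (VV (Zf G) 0 y * ((∏ i, (A i : ℝ)) / Real.log X ^ k)) := by
        rw [prod_mul_distrib, prod_div_distrib]
        simp only [prod_const, card_univ, Fintype.card_fin]
        ring

end Pool.Agent.X37.TQ
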