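import Mathlib
import Pool.Agent.X37.TQ.Poly
import Pool.Agent.Y843.HS.Top

/-! Almost all rough (for example prime) values of the polynomials `f_i + a_i` lie in narrow progressions. -/

set_option autoImplicit false

namespace Pool.Agent.X37.TQ

open Finset Filter Topology
open Pool.Agent.Y843.HS (Pr VV Sv Pr_mem VV_split)
open Pool.Agent.Y843.AC (OK Av)
open Pool.Agent.X26.GP (Zf mem_Zf_mod Zf_lt dvd_eval_iff)
open Pool.Agent.Y840.PT (floor_pow)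

/-- `(n, a)` is the middle of a progression of `2 K + 1` elements of `S` with the same second coordinate and
with a difference `≤ D` of the first coordinates -/
def Middle {k : ℕ} (K : ℕ) (D : ℝ) (S : Finset (ℕ × (Fin k → ℤ))) (n : ℕ) (a : Fin k → ℤ) : Prop :=
  ∃ d : ℕ, 1 ≤ d ∧ (d : ℝ) ≤ D ∧ K * d ≤ n ∧ ∀ j ≤ 2 * K, (n - K * d + j * d, a) ∈ S

/-- no prime factor up to `z` -/
def Rough (z : ℝ) (v : ℤ) : Prop := ∀ p : ℕ, p.Prime → (p : ℝ) ≤ z → ¬ (p : ℤ) ∣ v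

theorem rough_Fa {k : ℕ} {G : Polynomial ℤ} {f : Fin k → Polynomial ℤ} {a : Fin k → ℤ} {z : ℝ} {n : ℤ}
    (h1 : Rough z (G.eval n)) (h2 : ∀ i, Rough z ((f i).eval n + a i)) : Rough z ((Fa G f a).eval n) := by
  intro p hp hpz hd
  rw [Fa_eval] at hd
  have hp' : Prime (p : ℤ) := Nat.prime_iff_prime_int.1 hp
  rcases hp'.dvd_or_dvd hd with h | h
  · exact h1 p hp hpz h
  · obtain ⟨i, _, hi⟩ := (Prime.dvd_finsetProd_iff hp' _).1 h
    exact h2 i p hp hpz hi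

theorem adm_of_rough {κ : ℝ} {X : ℕ} {F : Polynomial ℤ} {n : ℤ} (h : Rough ((X : ℝ) ^ κ) (F.eval n)) :
    Adm κ X F := fun p hp hpX => ⟨n, h p hp hpX⟩

open Classical in
theorem main (k e K : ℕ) (η ε : ℝ) (hη : 0 < η) (hε : 0 < ε) : ∃ B X₀ : ℕ, ∀ X : ℕ, X₀ ≤ X →
    ∀ (G : Polynomial ℤ) (f : Fin k → Polynomial ℤ), G.natDegree ≤ e → (∀ i, (f i).natDegree ≤ e) →
    ∀ (U : ℕ) (b : Fin k → ℤ) (A : Fin k → ℕ), (∀ i, (X : ℝ) ^ η ≤ A i) →
    ∀ S : Finset (ℕ × (Fin k → ℤ)), (∀ x ∈ S, U < x.1 ∧ x.1 ≤ U + X ∧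
      Rough ((X : ℝ) ^ η) (G.eval (x.1 : ℤ)) ∧ (∀ i, b i < x.2 i ∧ x.2 i ≤ b i + A i) ∧
      ∀ i, Rough ((X : ℝ) ^ η) ((f i).eval (x.1 : ℤ) + x.2 i)) →
    ((S.filter (fun x => ¬ Middle K (Real.log X ^ B) S x.1 x.2)).card : ℝ) ≤
      ε * (X * VV (Zf G) 0 ⌊(X : ℝ) ^ η⌋₊ * ((∏ i, (A i : ℝ)) / Real.log X ^ k)) := by
  obtain ⟨κ₁, hκ₁, havg⟩ := avg k e η hη
  obtain ⟨κ, hκ⟩ : ∃ κ : ℝ, κ = min κ₁ η := ⟨_, rfl⟩
  have hκ0 : 0 < κ := by rw [hκ]; positivity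
  have hκ1 : κ ≤ κ₁ := by rw [hκ]; exact min_le_left _ _
  have hκη : κ ≤ η := by rw [hκ]; exact min_le_right _ _
  obtain ⟨C, hC, X₁, hX₁⟩ := havg κ hκ0 hκ1
  obtain ⟨L, hL⟩ : ∃ L : ℕ, L = ⌈2 * η / κ⌉₊ := ⟨_, rfl⟩
  have hLe : 2 * η / κ ≤ L := by rw [hL]; exact Nat.le_ceil _
  obtain ⟨c, hc, R₀, hden⟩ := Pool.Agent.Y79.HS.den e L
  obtain ⟨ρ, hρ⟩ : ∃ ρ : ℝ, ρ = ε * c / C := ⟨_, rfl⟩
  have hρ0 : 0 < ρ := by rw [hρ]; positivity
  obtain ⟨B, X₂, hB⟩ := Pool.Agent.Y843.HS.fin (2 * K + 1) (e + k * e) κ ρ hκ0 hρ0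
  obtain ⟨X₃, hX₃⟩ := eventually_atTop.1 (floor_pow hκ0 R₀)
  refine ⟨B, max (max X₁ X₂) (max X₃ 2), ?_⟩
  intro X hX G f hG hf U b A hA S hS
  have hX1 : X₁ ≤ X := ((le_max_left _ _).trans (le_max_left _ _)).trans hX
  have hX2 : X₂ ≤ X := ((le_max_right _ _).trans (le_max_left _ _)).trans hX
  have hX3 : X₃ ≤ X := ((le_max_left _ _).trans (le_max_right _ _)).trans hX
  have hX4 : 2 ≤ X := ((le_max_right _ _).trans (le_max_right _ _)).trans hX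
  have hXR : (0 : ℝ) < X := by exact_mod_cast (by omega : 0 < X)
  have hXR1 : (1 : ℝ) ≤ X := by exact_mod_cast (by omega : 1 ≤ X)
  have hLX : 0 < Real.log X := Real.log_pos (by exact_mod_cast (by omega : 1 < X))
  obtain ⟨h1, h2, h3⟩ := hX₃ X hX3
  obtain ⟨y, hy⟩ : ∃ y : ℕ, y = ⌊(X : ℝ) ^ κ⌋₊ := ⟨_, rfl⟩
  obtain ⟨Y, hY⟩ : ∃ Y : ℕ, Y = ⌊(X : ℝ) ^ η⌋₊ := ⟨_, rfl⟩
  rw [← hy] at h1 h2 h3
  rw [← hY]
  have hXκη : (X : ℝ) ^ κ ≤ (X : ℝ) ^ η := Real.rpow_le_rpow_of_exponent_le hXR1 hκη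
  have hyY : y ≤ Y := by rw [hy, hY]; exact Nat.floor_le_floor hXκη
  set E := S.filter (fun x => ¬ Middle K (Real.log X ^ B) S x.1 x.2) with hE
  have hVG := VV_nonneg (F := G) 0 Y
  rcases E.eq_empty_or_nonempty with hemp | ⟨x₀, hx₀⟩
  · rw [hemp, card_empty, Nat.cast_zero]
    positivity
  have hES : ∀ x ∈ E, x ∈ S := fun x hx => (mem_filter.1 hx).1
  -- the fixed polynomial
  have hGadm : Adm η X G := by
    have := hS x₀ (hES x₀ hx₀)
    exact adm_of_rough this.2.2.1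
  have hYL : Y ≤ y ^ L := by
    have h4 : (X : ℝ) ^ η ≤ (y : ℝ) ^ L := by
      have hy0 : (0 : ℝ) < y := by exact_mod_cast (by omega : 0 < y)
      rw [← Real.log_le_log_iff (by positivity) (by positivity), Real.log_rpow hXR, Real.log_pow]
      have hL0 : (0 : ℝ) ≤ L := Nat.cast_nonneg _
      calc η * Real.log X = 2 * η / κ * (κ / 2 * Real.log X) := by field_simp
        _ ≤ L * (κ / 2 * Real.log X) := by gcongr
        _ ≤ L * Real.log y := by gcongr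
    have h5 : (Y : ℝ) ≤ (y : ℝ) ^ L := by
      rw [hY]
      exact (Nat.floor_le (by positivity)).trans h4
    exact_mod_cast h5
  have hSv : Sv e y Y (Zf G) := by
    intro p hp
    have hp' := Pr_mem.1 hp
    have hpX : (p : ℝ) ≤ (X : ℝ) ^ η := by
      have h4 : (p : ℝ) ≤ Y := by exact_mod_cast hp'.1.2
      rw [hY] at h4
      exact h4.trans (Nat.floor_le (by positivity))
    have h4 := OK_of hG hGadm p hp'.2 hpX
    exact ⟨h4.1, h4.2.2⟩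
  have hcV : VV (Zf G) 0 y ≤ (1 / c) * VV (Zf G) 0 Y := by
    have h4 := hden y Y h1 hYL (Zf G) hSv
    have h5 := VV_split (Zf G) (Nat.zero_le y) hyY
    have h6 := VV_nonneg (F := G) 0 y
    rw [← h5]
    calc VV (Zf G) 0 y = (1 / c) * (VV (Zf G) 0 y * c) := by field_simp
      _ ≤ (1 / c) * (VV (Zf G) 0 y * VV (Zf G) y Y) := by gcongr
  -- the sets for the single vectors of shifts
  set Im := E.image Prod.snd with hIm
  have hImBox : Im ⊆ Box b A := by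
    intro a ha
    rw [hIm, mem_image] at ha
    obtain ⟨x, hx, rfl⟩ := ha
    exact mem_Box.2 (hS x (hES x hx)).2.2.2.1
  have hImAdm : ∀ a ∈ Im, Adm κ X (Fa G f a) := by
    intro a ha
    rw [hIm, mem_image] at ha
    obtain ⟨x, hx, rfl⟩ := ha
    have h4 := hS x (hES x hx)
    have h5 : Rough ((X : ℝ) ^ η) ((Fa G f x.2).eval (x.1 : ℤ)) := rough_Fa h4.2.2.1 h4.2.2.2.2
    intro p hp hpX
    exact ⟨x.1, h5 p hp (hpX.trans hXκη)⟩
  have hone : ∀ a ∈ Im, ((E.filter (fun x => x.2 = a)).card : ℝ) ≤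
      ρ * X * VV (Zf (Fa G f a)) 0 y := by
    intro a ha
    by_contra hcon
    rw [not_le] at hcon
    obtain ⟨T, hT⟩ : ∃ T : Finset ℕ, T = (E.filter (fun x => x.2 = a)).image Prod.fst := ⟨_, rfl⟩
    have hTc : T.card = (E.filter (fun x => x.2 = a)).card := by
      rw [hT]
      apply card_image_of_injOn
      intro x hx x' hx' hxx
      rw [mem_coe, mem_filter] at hx hx'
      exact Prod.ext hxx (hx.2.trans hx'.2.symm)
    have hTE : ∀ n ∈ T, (n, a) ∈ E := by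
      intro n hn
      rw [hT, mem_image] at hn
      obtain ⟨x, hx, rfl⟩ := hn
      rw [mem_filter] at hx
      rw [← hx.2]
      exact hx.1
    have h4 := hB X U hX2 (Zf (Fa G f a)) (OK_of (Fa_deg hG hf a) (hImAdm a ha)) T (by
      intro n hn
      have h5 := hS _ (hES _ (hTE n hn))
      rw [mem_Ioc]
      exact ⟨h5.1, h5.2.1⟩) (by
      intro n hn p hp hpX hd
      have h5 := hS _ (hES _ (hTE n hn))
      rw [mem_Zf_mod hp.pos] at hd
      exact rough_Fa h5.2.2.1 h5.2.2.2.2 p hp (hpX.trans hXκη) hd) (by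
      rw [hTc, ← hy]
      exact hcon.le)
    obtain ⟨u, d, hd1, hd2, hap⟩ := h4
    have h5 := hTE _ (hap K (by omega))
    have h6 := (mem_filter.1 h5).2
    apply h6
    refine ⟨d, hd1, hd2, ?_, ?_⟩
    · show K * d ≤ u + K * d
      omega
    · intro j hj
      show (u + K * d - K * d + j * d, a) ∈ S
      rw [Nat.add_sub_cancel]
      exact hES _ (hTE _ (hap j (by omega)))
  have hsum : (E.card : ℝ) = ∑ a ∈ Im, ((E.filter (fun x => x.2 = a)).card : ℝ) := by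
    have h4 := card_eq_sum_card_image Prod.snd E
    rw [h4]
    push_cast
    rfl
  have hmain := hX₁ X hX1 G f hG hf b A hA Im hImBox hImAdm
  rw [← hy] at hmain
  calc (E.card : ℝ) = ∑ a ∈ Im, ((E.filter (fun x => x.2 = a)).card : ℝ) := hsum
    _ ≤ ∑ a ∈ Im, ρ * X * VV (Zf (Fa G f a)) 0 y := sum_le_sum hone
    _ = ρ * X * ∑ a ∈ Im, VV (Zf (Fa G f a)) 0 y := by rw [mul_sum]
    _ ≤ ρ * X * (C * (VV (Zf G) 0 y * ((∏ i, (A i : ℝ)) / Real.log X ^ k))) := by gcongr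
    _ ≤ ρ * X * (C * (((1 / c) * VV (Zf G) 0 Y) * ((∏ i, (A i : ℝ)) / Real.log X ^ k))) := by gcongr
    _ = ε * (X * VV (Zf G) 0 Y * ((∏ i, (A i : ℝ)) / Real.log X ^ k)) := by
        rw [hρ]
        field_simp

end Pool.Agent.X37.TQ
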