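import Mathlib
import Pool.Agent.X37.TQ.Main

/-! Almost all rough values: the number of the others in all windows around them. -/

set_option autoImplicit false

namespace Pool.Agent.X37.TQ

open Finset Filter Topology
open Pool.Agent.Y843.HS (Pr VV Sv Pr_mem VV_split)
open Pool.Agent.Y843.AC (OK Av)
open Pool.Agent.X26.GP (Zf mem_Zf_mod Zf_lt dvd_eval_iff)
open Pool.Agent.Y840.PT (floor_pow)

theorem right_bad (T : Finset ℕ) (c : ℝ) (hc : 0 ≤ c) (N : ℕ) : ∀ m w : ℕ, w + m = N → ∀ R : Finset ℕ, R ⊆ T →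
    (∀ n ∈ R, w < n ∧ ∃ v, n ≤ v ∧ v ≤ N ∧ ((T.filter (fun t => n ≤ t ∧ t ≤ v)).card : ℝ) < c * ((v : ℝ) - n + 1)) →
    (R.card : ℝ) ≤ c * m := by
  intro m
  induction m using Nat.strong_induction_on with
  | _ m ih =>
    intro w hw R hR h
    rcases R.eq_empty_or_nonempty with h0 | h0
    · rw [h0, card_empty, Nat.cast_zero]
      positivity
    · obtain ⟨n, hn⟩ : ∃ n, n = R.min' h0 := ⟨_, rfl⟩
      have hnR : n ∈ R := by rw [hn]; exact R.min'_mem h0
      obtain ⟨hwn, v, hnv, hvN, hc1⟩ := h n hnR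
      have h1 : R ⊆ T.filter (fun t => n ≤ t ∧ t ≤ v) ∪ R.filter (fun t => v < t) := by
        intro t ht
        rw [mem_union, mem_filter, mem_filter]
        rcases le_or_gt t v with h2 | h2
        · left
          refine ⟨hR ht, ?_, h2⟩
          rw [hn]; exact R.min'_le t ht
        · exact Or.inr ⟨ht, h2⟩
      have h2 := ih (N - v) (by omega) v (by omega) (R.filter (fun t => v < t))
        ((filter_subset _ _).trans hR) (by
          intro t ht
          rw [mem_filter] at ht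
          exact ⟨ht.2, (h t ht.1).2⟩)
      have h3 : (R.card : ℝ) ≤ ((T.filter (fun t => n ≤ t ∧ t ≤ v)).card : ℝ) +
          ((R.filter (fun t => v < t)).card : ℝ) := by
        exact_mod_cast (card_le_card h1).trans (card_union_le _ _)
      rw [Nat.cast_sub hvN] at h2
      have h4 : (n : ℝ) ≥ w + 1 := by exact_mod_cast hwn
      have h5 : (N : ℝ) = w + m := by exact_mod_cast hw.symm
      have h6 : c * ((v : ℝ) - n + 1) + c * ((N : ℝ) - v) ≤ c * m := by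
        rw [← mul_add]
        apply mul_le_mul_of_nonneg_left _ hc
        linarith
      linarith

theorem left_bad (T : Finset ℕ) (c : ℝ) (hc : 0 ≤ c) (U : ℕ) : ∀ m : ℕ, ∀ R : Finset ℕ, R ⊆ T →
    (∀ n ∈ R, n ≤ U + m ∧ ∃ u, U < u ∧ u ≤ n ∧ ((T.filter (fun t => u ≤ t ∧ t ≤ n)).card : ℝ) < c * ((n : ℝ) - u + 1)) →
    (R.card : ℝ) ≤ c * m := by
  intro m
  induction m using Nat.strong_induction_on with
  | _ m ih =>
    intro R hR h
    rcases R.eq_empty_or_nonempty with h0 | h0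
    · rw [h0, card_empty, Nat.cast_zero]
      positivity
    · obtain ⟨n, hn⟩ : ∃ n, n = R.max' h0 := ⟨_, rfl⟩
      have hnR : n ∈ R := by rw [hn]; exact R.max'_mem h0
      obtain ⟨hwn, u, hUu, hun, hc1⟩ := h n hnR
      have h1 : R ⊆ T.filter (fun t => u ≤ t ∧ t ≤ n) ∪ R.filter (fun t => t < u) := by
        intro t ht
        rw [mem_union, mem_filter, mem_filter]
        rcases le_or_gt u t with h2 | h2
        · left
          refine ⟨hR ht, h2, ?_⟩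
          rw [hn]; exact R.le_max' t ht
        · exact Or.inr ⟨ht, h2⟩
      have h2 := ih (u - 1 - U) (by omega) (R.filter (fun t => t < u))
        ((filter_subset _ _).trans hR) (by
          intro t ht
          rw [mem_filter] at ht
          exact ⟨by omega, (h t ht.1).2⟩)
      have h3 : (R.card : ℝ) ≤ ((T.filter (fun t => u ≤ t ∧ t ≤ n)).card : ℝ) +
          ((R.filter (fun t => t < u)).card : ℝ) := by
        exact_mod_cast (card_le_card h1).trans (card_union_le _ _)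
      have e1 : ((u - 1 - U : ℕ) : ℝ) = (u : ℝ) - 1 - U := by
        rw [Nat.cast_sub (by omega), Nat.cast_sub (by omega)]
        norm_num
      rw [e1] at h2
      have h4 : (n : ℝ) ≤ U + m := by exact_mod_cast hwn
      have h6 : c * ((n : ℝ) - u + 1) + c * ((u : ℝ) - 1 - U) ≤ c * m := by
        rw [← mul_add]
        apply mul_le_mul_of_nonneg_left _ hc
        linarith
      linarith

/-- the elements of `T` in a window with few elements of `T` are few -/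
theorem window (T : Finset ℕ) (c : ℝ) (hc : 0 ≤ c) (U X : ℕ) (hT : T ⊆ Ioc U (U + X)) (R : Finset ℕ) (hR : R ⊆ T)
    (h : ∀ n ∈ R, ∃ u v, U < u ∧ u ≤ n ∧ n ≤ v ∧ v ≤ U + X ∧
      ((T.filter (fun t => u ≤ t ∧ t ≤ v)).card : ℝ) < c * ((v : ℝ) - u + 1)) :
    (R.card : ℝ) ≤ 4 * c * X := by
  classical
  set R1 := R.filter (fun n => ∃ v, n ≤ v ∧ v ≤ U + X ∧
    ((T.filter (fun t => n ≤ t ∧ t ≤ v)).card : ℝ) < (2 * c) * ((v : ℝ) - n + 1)) with hR1
  set R2 := R.filter (fun n => ∃ u, U < u ∧ u ≤ n ∧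
    ((T.filter (fun t => u ≤ t ∧ t ≤ n)).card : ℝ) < (2 * c) * ((n : ℝ) - u + 1)) with hR2
  have h1 : (R1.card : ℝ) ≤ 2 * c * X := by
    apply right_bad T (2 * c) (by positivity) (U + X) X U rfl R1 ((filter_subset _ _).trans hR)
    intro n hn
    rw [hR1, mem_filter] at hn
    exact ⟨(mem_Ioc.1 (hT (hR hn.1))).1, hn.2⟩
  have h2 : (R2.card : ℝ) ≤ 2 * c * X := by
    apply left_bad T (2 * c) (by positivity) U X R2 ((filter_subset _ _).trans hR)
    intro n hn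
    rw [hR2, mem_filter] at hn
    exact ⟨(mem_Ioc.1 (hT (hR hn.1))).2, hn.2⟩
  have h3 : R ⊆ R1 ∪ R2 := by
    intro n hn
    by_contra hcon
    rw [mem_union, not_or, hR1, hR2, mem_filter, mem_filter] at hcon
    obtain ⟨u, v, hUu, hun, hnv, hv, hlt⟩ := h n hn
    have h4 : (2 * c) * ((v : ℝ) - n + 1) ≤ ((T.filter (fun t => n ≤ t ∧ t ≤ v)).card : ℝ) := by
      by_contra h5
      exact hcon.1 ⟨hn, v, hnv, hv, not_le.1 h5⟩
    have h5 : (2 * c) * ((n : ℝ) - u + 1) ≤ ((T.filter (fun t => u ≤ t ∧ t ≤ n)).card : ℝ) := by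
      by_contra h6
      exact hcon.2 ⟨hn, u, hUu, hun, not_le.1 h6⟩
    have h6 : ((T.filter (fun t => n ≤ t ∧ t ≤ v)).card : ℝ) ≤ ((T.filter (fun t => u ≤ t ∧ t ≤ v)).card : ℝ) := by
      rw [Nat.cast_le]
      apply card_le_card
      intro t ht
      rw [mem_filter] at ht ⊢
      exact ⟨ht.1, hun.trans ht.2.1, ht.2.2⟩
    have h7 : ((T.filter (fun t => u ≤ t ∧ t ≤ n)).card : ℝ) ≤ ((T.filter (fun t => u ≤ t ∧ t ≤ v)).card : ℝ) := by
      rw [Nat.cast_le]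
      apply card_le_card
      intro t ht
      rw [mem_filter] at ht ⊢
      exact ⟨ht.1, ht.2.1, ht.2.2.trans hnv⟩
    nlinarith
  have h4 : (R.card : ℝ) ≤ (R1.card : ℝ) + (R2.card : ℝ) := by
    exact_mod_cast (card_le_card h3).trans (card_union_le _ _)
  linarith

/-- the comparison of the products -/
theorem VV_cmp (e : ℕ) (κ η : ℝ) (hκ0 : 0 < κ) (hκη : κ ≤ η) : ∃ c : ℝ, 0 < c ∧ ∃ X₀ : ℕ, ∀ X : ℕ, X₀ ≤ X →
    ∀ F : Polynomial ℤ, F.natDegree ≤ e → Adm η X F →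
    VV (Zf F) 0 ⌊(X : ℝ) ^ κ⌋₊ ≤ (1 / c) * VV (Zf F) 0 ⌊(X : ℝ) ^ η⌋₊ ∧
    VV (Zf F) 0 ⌊(X : ℝ) ^ η⌋₊ ≤ VV (Zf F) 0 ⌊(X : ℝ) ^ κ⌋₊ := by
  obtain ⟨L, hL⟩ : ∃ L : ℕ, L = ⌈2 * η / κ⌉₊ := ⟨_, rfl⟩
  have hη : 0 < η := hκ0.trans_le hκη
  have hLe : 2 * η / κ ≤ L := by rw [hL]; exact Nat.le_ceil _
  obtain ⟨c, hc, R₀, hden⟩ := Pool.Agent.Y79.HS.den e L
  obtain ⟨X₃, hX₃⟩ := eventually_atTop.1 (floor_pow hκ0 R₀)
  refine ⟨c, hc, max X₃ 2, ?_⟩
  intro X hX F hF hadm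
  have hX3 : X₃ ≤ X := (le_max_left _ _).trans hX
  have hX4 : 2 ≤ X := (le_max_right _ _).trans hX
  have hXR : (0 : ℝ) < X := by exact_mod_cast (by omega : 0 < X)
  have hXR1 : (1 : ℝ) ≤ X := by exact_mod_cast (by omega : 1 ≤ X)
  obtain ⟨h1, h2, h3⟩ := hX₃ X hX3
  obtain ⟨y, hy⟩ : ∃ y : ℕ, y = ⌊(X : ℝ) ^ κ⌋₊ := ⟨_, rfl⟩
  obtain ⟨Y, hY⟩ : ∃ Y : ℕ, Y = ⌊(X : ℝ) ^ η⌋₊ := ⟨_, rfl⟩
  rw [← hy] at h1 h2 h3
  rw [← hY, ← hy]
  have hXκη : (X : ℝ) ^ κ ≤ (X : ℝ) ^ η := Real.rpow_le_rpow_of_exponent_le hXR1 hκη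
  have hyY : y ≤ Y := by rw [hy, hY]; exact Nat.floor_le_floor hXκη
  have hYL : Y ≤ y ^ L := by
    have h4 : (X : ℝ) ^ η ≤ (y : ℝ) ^ L := by
      have hy0 : (0 : ℝ) < y := by exact_mod_cast (by omega : 0 < y)
      rw [← Real.log_le_log_iff (by positivity) (by positivity), Real.log_rpow hXR, Real.log_pow]
      have hL0 : (0 : ℝ) ≤ L := Nat.cast_nonneg _
      have hLX : 0 < Real.log X := Real.log_pos (by exact_mod_cast (by omega : 1 < X))
      calc η * Real.log X = 2 * η / κ * (κ / 2 * Real.log X) := by field_simp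
        _ ≤ L * (κ / 2 * Real.log X) := by gcongr
        _ ≤ L * Real.log y := by gcongr
    have h5 : (Y : ℝ) ≤ (y : ℝ) ^ L := by
      rw [hY]
      exact (Nat.floor_le (by positivity)).trans h4
    exact_mod_cast h5
  have hSv : Sv e y Y (Zf F) := by
    intro p hp
    have hp' := Pr_mem.1 hp
    have hpX : (p : ℝ) ≤ (X : ℝ) ^ η := by
      have h4 : (p : ℝ) ≤ Y := by exact_mod_cast hp'.1.2
      rw [hY] at h4
      exact h4.trans (Nat.floor_le (by positivity))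
    have h4 := OK_of hF hadm p hp'.2 hpX
    exact ⟨h4.1, h4.2.2⟩
  have h4 := hden y Y h1 hYL (Zf F) hSv
  have h5 := VV_split (Zf F) (Nat.zero_le y) hyY
  have h6 := VV_nonneg (F := F) 0 y
  rw [← h5]
  constructor
  · calc VV (Zf F) 0 y = (1 / c) * (VV (Zf F) 0 y * c) := by field_simp
      _ ≤ (1 / c) * (VV (Zf F) 0 y * VV (Zf F) y Y) := by gcongr
  · calc VV (Zf F) 0 y * VV (Zf F) y Y ≤ VV (Zf F) 0 y * 1 := by
          apply mul_le_mul_of_nonneg_left _ h6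
          unfold VV
          apply prod_le_one
          · intro p hp
            have hp0 : (0 : ℝ) < p := by exact_mod_cast (Pr_mem.1 hp).2.pos
            have h7 : ((Zf F p).card : ℝ) ≤ p := by
              have : (Zf F p).card ≤ p := by
                unfold Zf
                exact (card_filter_le _ _).trans (by simp)
              exact_mod_cast this
            rw [sub_nonneg, div_le_one hp0]
            exact h7
          · intro p hp
            have : (0 : ℝ) ≤ ((Zf F p).card : ℝ) / p := by positivity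
            linarith
      _ = VV (Zf F) 0 y := mul_one _

open Classical in
theorem counts (k e : ℕ) (η : ℝ) (hη : 0 < η) (hη1 : η ≤ 1) : ∃ C : ℝ, 0 < C ∧ ∃ X₀ : ℕ, ∀ X : ℕ, X₀ ≤ X →
    ∀ (G : Polynomial ℤ) (f : Fin k → Polynomial ℤ), G.natDegree ≤ e → (∀ i, (f i).natDegree ≤ e) →
    ∀ (U : ℕ) (b : Fin k → ℤ) (A : Fin k → ℕ), (∀ i, (X : ℝ) ^ η ≤ A i) →
    ∀ S : Finset (ℕ × (Fin k → ℤ)), (∀ x ∈ S, U < x.1 ∧ x.1 ≤ U + X ∧
      Rough ((X : ℝ) ^ η) (G.eval (x.1 : ℤ)) ∧ (∀ i, b i < x.2 i ∧ x.2 i ≤ b i + A i) ∧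
      ∀ i, Rough ((X : ℝ) ^ η) ((f i).eval (x.1 : ℤ) + x.2 i)) →
    (∀ δ : ℝ, 0 < δ → ((S.filter (fun x => ∃ u v : ℕ, U < u ∧ u ≤ x.1 ∧ x.1 ≤ v ∧ v ≤ U + X ∧
        (((Icc u v).filter (fun m => (m, x.2) ∈ S)).card : ℝ) <
          δ * (((v : ℝ) - u + 1) * VV (Zf (Fa G f x.2)) 0 ⌊(X : ℝ) ^ η⌋₊))).card : ℝ) ≤
      C * δ * (X * VV (Zf G) 0 ⌊(X : ℝ) ^ η⌋₊ * ((∏ i, (A i : ℝ)) / Real.log X ^ k))) ∧
    ∀ (a : Fin k → ℤ) (u v : ℕ), u ≤ v → (X : ℝ) ^ η ≤ (v : ℝ) - u + 1 → (v : ℝ) - u + 1 ≤ X →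
      (((Icc u v).filter (fun m => (m, a) ∈ S)).card : ℝ) ≤
        C * (((v : ℝ) - u + 1) * VV (Zf (Fa G f a)) 0 ⌊(X : ℝ) ^ η⌋₊) := by
  obtain ⟨κ₁, hκ₁, havg⟩ := avg k e η hη
  obtain ⟨κ, hκ⟩ : ∃ κ : ℝ, κ = min κ₁ η := ⟨_, rfl⟩
  have hκ0 : 0 < κ := by rw [hκ]; positivity
  have hκ1 : κ ≤ κ₁ := by rw [hκ]; exact min_le_left _ _
  have hκη : κ ≤ η := by rw [hκ]; exact min_le_right _ _
  obtain ⟨C₁, hC₁, X₁, hX₁⟩ := havg κ hκ0 hκ1
  obtain ⟨c, hc, X₂, hX₂⟩ := VV_cmp e κ η hκ0 hκη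
  obtain ⟨κ₂, hκ₂, hκ₂1, hupper⟩ := upper (e + k * e)
  obtain ⟨lm, hlm⟩ : ∃ lm : ℝ, lm = min κ₂ η := ⟨_, rfl⟩
  have hlm0 : 0 < lm := by rw [hlm]; positivity
  have hlm1 : lm ≤ κ₂ := by rw [hlm]; exact min_le_left _ _
  have hlm2 : lm ≤ η := by rw [hlm]; exact min_le_right _ _
  obtain ⟨H₀, hH₀⟩ := hupper lm hlm0 hlm1
  have hηlm : η * lm ≤ η := by
    have : lm ≤ 1 := hlm1.trans hκ₂1
    nlinarith
  obtain ⟨c', hc', X₄, hX₄⟩ := VV_cmp (e + k * e) (η * lm) η (by positivity) hηlm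
  obtain ⟨X₅, hX₅⟩ := eventually_atTop.1 (floor_pow hη H₀)
  refine ⟨max (4 * C₁ / c) (2 / c'), lt_max_of_lt_left (by positivity), max (max X₁ X₂) (max X₄ (max X₅ 2)), ?_⟩
  intro X hX G f hG hf U b A hA S hS
  have hX1 : X₁ ≤ X := ((le_max_left _ _).trans (le_max_left _ _)).trans hX
  have hX2 : X₂ ≤ X := ((le_max_right _ _).trans (le_max_left _ _)).trans hX
  have hX4 : X₄ ≤ X := ((le_max_left _ _).trans (le_max_right _ _)).trans hX
  have hX5 : X₅ ≤ X := ((le_max_left _ _).trans ((le_max_right _ _).trans (le_max_right _ _))).trans hX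
  have hX6 : 2 ≤ X := ((le_max_right _ _).trans ((le_max_right _ _).trans (le_max_right _ _))).trans hX
  have hXR : (0 : ℝ) < X := by exact_mod_cast (by omega : 0 < X)
  have hXR1 : (1 : ℝ) ≤ X := by exact_mod_cast (by omega : 1 ≤ X)
  have hLX : 0 < Real.log X := Real.log_pos (by exact_mod_cast (by omega : 1 < X))
  have hXκη : (X : ℝ) ^ κ ≤ (X : ℝ) ^ η := Real.rpow_le_rpow_of_exponent_le hXR1 hκη
  have hrF : ∀ x ∈ S, Rough ((X : ℝ) ^ η) ((Fa G f x.2).eval (x.1 : ℤ)) :=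
    fun x hx => rough_Fa (hS x hx).2.2.1 (hS x hx).2.2.2.2
  refine ⟨fun δ hδ => ?_, ?_⟩
  · set E := S.filter (fun x => ∃ u v : ℕ, U < u ∧ u ≤ x.1 ∧ x.1 ≤ v ∧ v ≤ U + X ∧
        (((Icc u v).filter (fun m => (m, x.2) ∈ S)).card : ℝ) <
          δ * (((v : ℝ) - u + 1) * VV (Zf (Fa G f x.2)) 0 ⌊(X : ℝ) ^ η⌋₊)) with hE
    have hVG := VV_nonneg (F := G) 0 ⌊(X : ℝ) ^ η⌋₊
    rcases E.eq_empty_or_nonempty with hemp | ⟨x₀, hx₀⟩
    · rw [hemp, card_empty, Nat.cast_zero]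
      have : 0 ≤ max (4 * C₁ / c) (2 / c') := le_max_of_le_left (by positivity)
      positivity
    have hES : ∀ x ∈ E, x ∈ S := fun x hx => (mem_filter.1 hx).1
    have hGadm : Adm η X G := adm_of_rough (hS x₀ (hES x₀ hx₀)).2.2.1
    have hcV := (hX₂ X hX2 G hG hGadm).1
    set Im := E.image Prod.snd with hIm
    have hImBox : Im ⊆ Box b A := by
      intro a ha
      rw [hIm, mem_image] at ha
      obtain ⟨x, hx, rfl⟩ := ha
      exact mem_Box.2 (hS x (hES x hx)).2.2.2.1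
    have hImAdmη : ∀ a ∈ Im, Adm η X (Fa G f a) := by
      intro a ha
      rw [hIm, mem_image] at ha
      obtain ⟨x, hx, rfl⟩ := ha
      exact adm_of_rough (hrF x (hES x hx))
    have hImAdm : ∀ a ∈ Im, Adm κ X (Fa G f a) := fun a ha p hp hpX => hImAdmη a ha p hp (hpX.trans hXκη)
    have hone : ∀ a ∈ Im, ((E.filter (fun x => x.2 = a)).card : ℝ) ≤
        4 * (δ * VV (Zf (Fa G f a)) 0 ⌊(X : ℝ) ^ κ⌋₊) * X := by
      intro a ha
      have hVa := VV_nonneg (F := Fa G f a) 0 ⌊(X : ℝ) ^ η⌋₊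
      have hmono : VV (Zf (Fa G f a)) 0 ⌊(X : ℝ) ^ η⌋₊ ≤ VV (Zf (Fa G f a)) 0 ⌊(X : ℝ) ^ κ⌋₊ := by
        obtain ⟨y, hy⟩ : ∃ y : ℕ, y = ⌊(X : ℝ) ^ κ⌋₊ := ⟨_, rfl⟩
        obtain ⟨Y, hY⟩ : ∃ Y : ℕ, Y = ⌊(X : ℝ) ^ η⌋₊ := ⟨_, rfl⟩
        rw [← hY, ← hy]
        have hyY : y ≤ Y := by rw [hy, hY]; exact Nat.floor_le_floor hXκη
        have h5 := VV_split (Zf (Fa G f a)) (Nat.zero_le y) hyY
        have h6 := VV_nonneg (F := Fa G f a) 0 y
        rw [← h5]
        calc VV (Zf (Fa G f a)) 0 y * VV (Zf (Fa G f a)) y Y ≤ VV (Zf (Fa G f a)) 0 y * 1 := by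
              apply mul_le_mul_of_nonneg_left _ h6
              unfold VV
              apply prod_le_one
              · intro p hp
                have hp0 : (0 : ℝ) < p := by exact_mod_cast (Pr_mem.1 hp).2.pos
                have h7 : ((Zf (Fa G f a) p).card : ℝ) ≤ p := by
                  have : (Zf (Fa G f a) p).card ≤ p := by
                    unfold Zf
                    exact (card_filter_le _ _).trans (by simp)
                  exact_mod_cast this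
                rw [sub_nonneg, div_le_one hp0]
                exact h7
              · intro p hp
                have : (0 : ℝ) ≤ ((Zf (Fa G f a) p).card : ℝ) / p := by positivity
                linarith
          _ = VV (Zf (Fa G f a)) 0 y := mul_one _
      obtain ⟨T, hT⟩ : ∃ T : Finset ℕ, T = (S.filter (fun x => x.2 = a)).image Prod.fst := ⟨_, rfl⟩
      obtain ⟨R, hR⟩ : ∃ R : Finset ℕ, R = (E.filter (fun x => x.2 = a)).image Prod.fst := ⟨_, rfl⟩
      have hRc : R.card = (E.filter (fun x => x.2 = a)).card := by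
        rw [hR]
        apply card_image_of_injOn
        intro x hx x' hx' hxx
        rw [mem_coe, mem_filter] at hx hx'
        exact Prod.ext hxx (hx.2.trans hx'.2.symm)
      have hTmem : ∀ n, n ∈ T ↔ (n, a) ∈ S := by
        intro n
        rw [hT, mem_image]
        constructor
        · rintro ⟨x, hx, rfl⟩
          rw [mem_filter] at hx
          rw [← hx.2]
          exact hx.1
        · intro hn
          exact ⟨(n, a), mem_filter.2 ⟨hn, rfl⟩, rfl⟩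
      have hRmem : ∀ n ∈ R, (n, a) ∈ E := by
        intro n hn
        rw [hR, mem_image] at hn
        obtain ⟨x, hx, rfl⟩ := hn
        rw [mem_filter] at hx
        rw [← hx.2]
        exact hx.1
      rw [← hRc]
      have h4 := window T (δ * VV (Zf (Fa G f a)) 0 ⌊(X : ℝ) ^ η⌋₊) (by positivity) U X (by
        intro n hn
        have h5 := hS _ ((hTmem n).1 hn)
        rw [mem_Ioc]
        exact ⟨h5.1, h5.2.1⟩) R (by
        intro n hn
        exact (hTmem n).2 (hES _ (hRmem n hn))) (by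
        intro n hn
        obtain ⟨u, v, h5, h6, h7, h8, h9⟩ := (mem_filter.1 (hRmem n hn)).2
        refine ⟨u, v, h5, h6, h7, h8, ?_⟩
        have e1 : T.filter (fun t => u ≤ t ∧ t ≤ v) = (Icc u v).filter (fun m => (m, a) ∈ S) := by
          ext t
          rw [mem_filter, mem_filter, mem_Icc, hTmem]
          exact and_comm
        rw [e1]
        refine h9.trans_le (le_of_eq ?_)
        ring)
      refine h4.trans ?_
      gcongr
    have hsum : (E.card : ℝ) = ∑ a ∈ Im, ((E.filter (fun x => x.2 = a)).card : ℝ) := by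
      have h4 := card_eq_sum_card_image Prod.snd E
      rw [h4]
      push_cast
      rfl
    have hmain := hX₁ X hX1 G f hG hf b A hA Im hImBox hImAdm
    calc (E.card : ℝ) = ∑ a ∈ Im, ((E.filter (fun x => x.2 = a)).card : ℝ) := hsum
      _ ≤ ∑ a ∈ Im, 4 * (δ * VV (Zf (Fa G f a)) 0 ⌊(X : ℝ) ^ κ⌋₊) * X := sum_le_sum hone
      _ = 4 * δ * X * ∑ a ∈ Im, VV (Zf (Fa G f a)) 0 ⌊(X : ℝ) ^ κ⌋₊ := by
          rw [mul_sum]
          apply sum_congr rfl
          intro a _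
          ring
      _ ≤ 4 * δ * X * (C₁ * (VV (Zf G) 0 ⌊(X : ℝ) ^ κ⌋₊ * ((∏ i, (A i : ℝ)) / Real.log X ^ k))) := by gcongr
      _ ≤ 4 * δ * X * (C₁ * (((1 / c) * VV (Zf G) 0 ⌊(X : ℝ) ^ η⌋₊) * ((∏ i, (A i : ℝ)) / Real.log X ^ k))) := by
          gcongr
      _ = (4 * C₁ / c) * δ * (X * VV (Zf G) 0 ⌊(X : ℝ) ^ η⌋₊ * ((∏ i, (A i : ℝ)) / Real.log X ^ k)) := by
          field_simp
      _ ≤ _ := by
          have : 4 * C₁ / c ≤ max (4 * C₁ / c) (2 / c') := le_max_left _ _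
          gcongr
  · intro a u v huv hXuv huvX
    have hVa := VV_nonneg (F := Fa G f a) 0 ⌊(X : ℝ) ^ η⌋₊
    have hCpos : 0 ≤ max (4 * C₁ / c) (2 / c') := le_max_of_le_left (by positivity)
    have huv0 : (0 : ℝ) ≤ (v : ℝ) - u + 1 := (Real.rpow_nonneg hXR.le _).trans hXuv
    rcases ((Icc u v).filter (fun m => (m, a) ∈ S)).eq_empty_or_nonempty with hemp | ⟨m₀, hm₀⟩
    · rw [hemp, card_empty, Nat.cast_zero]
      positivity
    have hm₀S := (mem_filter.1 hm₀).2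
    have hr₀ : Rough ((X : ℝ) ^ η) ((Fa G f a).eval (m₀ : ℤ)) := hrF (m₀, a) hm₀S
    have hadm : Adm η X (Fa G f a) := adm_of_rough hr₀
    obtain ⟨H, hH⟩ : ∃ H : ℕ, H = v + 1 - u := ⟨_, rfl⟩
    have hHR : (H : ℝ) = (v : ℝ) - u + 1 := by
      rw [hH, Nat.cast_sub (by omega)]
      push_cast
      ring
    rw [← hHR] at hXuv huvX ⊢
    have hHX : H ≤ X := by exact_mod_cast huvX
    have hH0 : H₀ ≤ H := by
      have h4 := (hX₅ X hX5).1
      refine h4.trans ?_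
      have h5 : (⌊(X : ℝ) ^ η⌋₊ : ℝ) ≤ H := (Nat.floor_le (by positivity)).trans hXuv
      exact_mod_cast h5
    have hHpos : (0 : ℝ) < H := (Real.rpow_pos_of_pos hXR _).trans_le hXuv
    have hHlX : (H : ℝ) ^ lm ≤ (X : ℝ) ^ η := by
      calc (H : ℝ) ^ lm ≤ (X : ℝ) ^ lm := Real.rpow_le_rpow hHpos.le huvX hlm0.le
        _ ≤ (X : ℝ) ^ η := Real.rpow_le_rpow_of_exponent_le hXR1 hlm2
    have hXHl : (X : ℝ) ^ (η * lm) ≤ (H : ℝ) ^ lm := by
      rw [Real.rpow_mul hXR.le]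
      exact Real.rpow_le_rpow (by positivity) hXuv hlm0.le
    have hadmH : Adm lm H (Fa G f a) := fun p hp hpH => hadm p hp (hpH.trans hHlX)
    have h4 := hH₀ H (u - 1) hH0 (Zf (Fa G f a)) (OK_of (Fa_deg hG hf a) hadmH)
    have h5 : ((Icc u v).filter (fun m => (m, a) ∈ S)).card ≤
        ((Ioc (u - 1) (u - 1 + H)).filter (fun n => Av lm H (Zf (Fa G f a)) n)).card := by
      apply card_le_card
      intro m hm
      rw [mem_filter, mem_Icc] at hm
      have hmS := hS _ hm.2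
      have hm1 : U < m := hmS.1
      rw [mem_filter, mem_Ioc]
      refine ⟨by omega, ?_⟩
      intro p hp hpH hd
      rw [mem_Zf_mod hp.pos] at hd
      have hr1 : Rough ((X : ℝ) ^ η) ((Fa G f a).eval (m : ℤ)) := hrF (m, a) hm.2
      exact hr1 p hp (hpH.trans hHlX) hd
    have h6 : VV (Zf (Fa G f a)) 0 ⌊(H : ℝ) ^ lm⌋₊ ≤ VV (Zf (Fa G f a)) 0 ⌊(X : ℝ) ^ (η * lm)⌋₊ := by
      obtain ⟨y, hy⟩ : ∃ y : ℕ, y = ⌊(X : ℝ) ^ (η * lm)⌋₊ := ⟨_, rfl⟩
      obtain ⟨Y, hY⟩ : ∃ Y : ℕ, Y = ⌊(H : ℝ) ^ lm⌋₊ := ⟨_, rfl⟩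
      rw [← hY, ← hy]
      have hyY : y ≤ Y := by rw [hy, hY]; exact Nat.floor_le_floor hXHl
      have h5 := VV_split (Zf (Fa G f a)) (Nat.zero_le y) hyY
      have h6 := VV_nonneg (F := Fa G f a) 0 y
      rw [← h5]
      calc VV (Zf (Fa G f a)) 0 y * VV (Zf (Fa G f a)) y Y ≤ VV (Zf (Fa G f a)) 0 y * 1 := by
            apply mul_le_mul_of_nonneg_left _ h6
            unfold VV
            apply prod_le_one
            · intro p hp
              have hp0 : (0 : ℝ) < p := by exact_mod_cast (Pr_mem.1 hp).2.pos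
              have h7 : ((Zf (Fa G f a) p).card : ℝ) ≤ p := by
                have : (Zf (Fa G f a) p).card ≤ p := by
                  unfold Zf
                  exact (card_filter_le _ _).trans (by simp)
                exact_mod_cast this
              rw [sub_nonneg, div_le_one hp0]
              exact h7
            · intro p hp
              have : (0 : ℝ) ≤ ((Zf (Fa G f a) p).card : ℝ) / p := by positivity
              linarith
        _ = VV (Zf (Fa G f a)) 0 y := mul_one _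
    have h7 := (hX₄ X hX4 (Fa G f a) (Fa_deg hG hf a) hadm).1
    calc (((Icc u v).filter (fun m => (m, a) ∈ S)).card : ℝ)
        ≤ (((Ioc (u - 1) (u - 1 + H)).filter (fun n => Av lm H (Zf (Fa G f a)) n)).card : ℝ) := by
          exact_mod_cast h5
      _ ≤ 2 * (H * VV (Zf (Fa G f a)) 0 ⌊(H : ℝ) ^ lm⌋₊) := h4
      _ ≤ 2 * (H * ((1 / c') * VV (Zf (Fa G f a)) 0 ⌊(X : ℝ) ^ η⌋₊)) := by
          gcongr
          exact h6.trans h7
      _ = (2 / c') * (H * VV (Zf (Fa G f a)) 0 ⌊(X : ℝ) ^ η⌋₊) := by ring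
      _ ≤ _ := by
          have : 2 / c' ≤ max (4 * C₁ / c) (2 / c') := le_max_right _ _
          gcongr

end Pool.Agent.X37.TQ
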